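import Pool.Agent.Helper41.Circ.Ext
import Pool.Agent.Helper41.Circ.Trans

/-!
# Automata with a balanced law on the letters: averages over words

`p` is a probability law on the letters such that the expected number of preimages of every state
is `1` (for Eulerian automata: the uniform law).
-/

open Finset

namespace Helper26.Eul

open Helper41.Circ

variable {n : ℕ}

/-- one step of the random walk, on functions -/
def av (Ω : Finset (Fin n → Fin n)) (p : (Fin n → Fin n) → ℝ) (g : Fin n → ℝ) (x : Fin n) : ℝ :=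
  ∑ f ∈ Ω, p f * g (f x)

/-- `i` steps of the random walk, on functions -/
def avn (Ω : Finset (Fin n → Fin n)) (p : (Fin n → Fin n) → ℝ) : ℕ → (Fin n → ℝ) → Fin n → ℝ
  | 0, g => g
  | i + 1, g => av Ω p (avn Ω p i g)

/-- a balanced law on the letters -/
structure Bal (Ω : Finset (Fin n → Fin n)) (p : (Fin n → Fin n) → ℝ) : Prop where
  nonneg : ∀ f ∈ Ω, 0 ≤ p f
  one : ∑ f ∈ Ω, p f = 1
  bal : ∀ y : Fin n, ∑ f ∈ Ω, p f * ((univ.filter fun x => f x = y).card : ℝ) = 1

variable {Ω : Finset (Fin n → Fin n)} {p : (Fin n → Fin n) → ℝ}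

theorem sum_comp (f : Fin n → Fin n) (g : Fin n → ℝ) :
    ∑ x, g (f x) = ∑ y, ((univ.filter fun x => f x = y).card : ℝ) * g y := by
  rw [← sum_fiberwise (s := univ) (g := f) (f := fun x => g (f x))]
  refine sum_congr rfl fun y _ => ?_
  rw [card_eq_sum_ones, Nat.cast_sum, sum_mul]
  refine sum_congr rfl fun x hx => ?_
  rw [(mem_filter.1 hx).2]
  simp

theorem Bal.sum_av (h : Bal Ω p) (g : Fin n → ℝ) : ∑ x, av Ω p g x = ∑ x, g x := by
  unfold av
  rw [sum_comm]
  have h1 : ∀ f ∈ Ω, ∑ x, p f * g (f x) =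
      ∑ y, p f * ((univ.filter fun x => f x = y).card : ℝ) * g y := by
    intro f _
    rw [← mul_sum, sum_comp, mul_sum]
    exact sum_congr rfl fun y _ => by ring
  rw [sum_congr rfl h1, sum_comm]
  refine sum_congr rfl fun y _ => ?_
  rw [← sum_mul, h.bal y, one_mul]

theorem Bal.sum_avn (h : Bal Ω p) (i : ℕ) (g : Fin n → ℝ) : ∑ x, avn Ω p i g x = ∑ x, g x := by
  induction i with
  | zero => rfl
  | succ i ih =>
    show ∑ x, av Ω p (avn Ω p i g) x = _
    rw [h.sum_av, ih]

theorem av_nonneg (h : Bal Ω p) {g : Fin n → ℝ} (hg : ∀ x, 0 ≤ g x) (x : Fin n) :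
    0 ≤ av Ω p g x :=
  sum_nonneg fun f hf => mul_nonneg (h.nonneg f hf) (hg _)

theorem avn_nonneg (h : Bal Ω p) {g : Fin n → ℝ} (hg : ∀ x, 0 ≤ g x) (i : ℕ) (x : Fin n) :
    0 ≤ avn Ω p i g x := by
  induction i generalizing x with
  | zero => exact hg x
  | succ i ih => exact av_nonneg h ih x

/-- if the sum over a family of tokens is at least `c` after every word of length `i`, then so is the
average -/
theorem avn_ge (h : Bal Ω p) {ι : Type*} (s : Finset ι) (g : Fin n → ℝ) (c : ℝ) (i : ℕ)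
    (x : ι → Fin n) (hw : ∀ w, Over Ω w → w.length = i → c ≤ ∑ t ∈ s, g (act w (x t))) :
    c ≤ ∑ t ∈ s, avn Ω p i g (x t) := by
  induction i generalizing x with
  | zero => exact hw [] (fun f hf => by simp at hf) rfl
  | succ i ih =>
    show c ≤ ∑ t ∈ s, ∑ f ∈ Ω, p f * avn Ω p i g (f (x t))
    rw [sum_comm]
    have h1 : ∀ f ∈ Ω, p f * c ≤ ∑ t ∈ s, p f * avn Ω p i g (f (x t)) := by
      intro f hf
      rw [← mul_sum]
      refine mul_le_mul_of_nonneg_left ?_ (h.nonneg f hf)
      refine ih (fun t => f (x t)) fun w hw1 hw2 => ?_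
      refine hw (f :: w) ?_ (by simp [hw2])
      intro a ha
      rcases List.mem_cons.1 ha with h2 | h2
      · rw [h2]; exact hf
      · exact hw1 a h2
    calc c = ∑ f ∈ Ω, p f * c := by rw [← sum_mul, h.one, one_mul]
      _ ≤ _ := sum_le_sum h1

/-- strict version -/
theorem avn_lt (h : Bal Ω p) (hpos : ∀ f ∈ Ω, 0 < p f) {ι : Type*} (s : Finset ι) (g : Fin n → ℝ) (c : ℝ) (i : ℕ)
    (x : ι → Fin n) (hw : ∀ w, Over Ω w → w.length = i → ∑ t ∈ s, g (act w (x t)) ≤ c)
    (hex : ∃ w, Over Ω w ∧ w.length = i ∧ ∑ t ∈ s, g (act w (x t)) < c) :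
    ∑ t ∈ s, avn Ω p i g (x t) < c := by
  induction i generalizing x with
  | zero =>
    obtain ⟨w, _, h2, h3⟩ := hex
    rw [List.length_eq_zero_iff] at h2
    subst h2
    exact h3
  | succ i ih =>
    have hle : ∀ f ∈ Ω, ∑ t ∈ s, avn Ω p i g (f (x t)) ≤ c := by
      intro f hf
      have h3 := avn_ge h s (fun y => - g y) (-c) i (fun t => f (x t)) fun w hw1 hw2 => by
        rw [sum_neg_distrib]
        refine neg_le_neg (hw (f :: w) ?_ (by simp [hw2]))
        intro a ha
        rcases List.mem_cons.1 ha with h2 | h2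
        · rw [h2]; exact hf
        · exact hw1 a h2
      have h4 : ∀ (j : ℕ) (y : Fin n), avn Ω p j (fun y => - g y) y = - avn Ω p j g y := by
        intro j
        induction j with
        | zero => intro y; rfl
        | succ j ihj =>
          intro y
          show ∑ f ∈ Ω, p f * avn Ω p j (fun y => - g y) (f y) = - ∑ f ∈ Ω, p f * avn Ω p j g (f y)
          rw [← sum_neg_distrib]
          refine sum_congr rfl fun f _ => ?_
          rw [ihj]
          ring
      simp only [h4, sum_neg_distrib] at h3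
      linarith
    obtain ⟨w, h1, h2, h3⟩ := hex
    obtain ⟨f, u, rfl⟩ : ∃ f u, w = f :: u := by
      cases w with
      | nil => simp at h2
      | cons f u => exact ⟨f, u, rfl⟩
    have hf : f ∈ Ω := h1 f (by simp)
    have hlt : ∑ t ∈ s, avn Ω p i g (f (x t)) < c := by
      refine ih (fun t => f (x t)) ?_ ⟨u, fun a ha => h1 a (by simp [ha]), by simpa using h2, h3⟩
      intro w hw1 hw2
      refine hw (f :: w) ?_ (by simp [hw2])
      intro a ha
      rcases List.mem_cons.1 ha with h5 | h5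
      · rw [h5]; exact hf
      · exact hw1 a h5
    show ∑ t ∈ s, ∑ f ∈ Ω, p f * avn Ω p i g (f (x t)) < c
    rw [sum_comm]
    calc ∑ f ∈ Ω, ∑ t ∈ s, p f * avn Ω p i g (f (x t))
        = ∑ f ∈ Ω, p f * ∑ t ∈ s, avn Ω p i g (f (x t)) :=
          sum_congr rfl fun f _ => (mul_sum _ _ _).symm
      _ < ∑ f ∈ Ω, p f * c := by
          refine sum_lt_sum (fun f hf => mul_le_mul_of_nonneg_left (hle f hf) (h.nonneg f hf))
            ⟨f, hf, mul_lt_mul_of_pos_left hlt (hpos f hf)⟩
      _ = c := by rw [← sum_mul, h.one, one_mul]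

/-- **Extension lemma** (Kari, Steinberg): a proper non-empty set has a word of length less than `n`
with more preimages. -/
theorem extend (h : Bal Ω p) (hpos : ∀ f ∈ Ω, 0 < p f) {t : List (Fin n → Fin n)} (ht : Over Ω t) {q : Fin n}
    (htq : ∀ x, act t x = q) {S : Finset (Fin n)} (hS0 : 0 < S.card) (hSn : S.card < n) :
    ∃ u, Over Ω u ∧ u.length ≤ n - 1 ∧ S.card < (pre u S).card := by
  classical
  have hn : (0 : ℚ) < n := by exact_mod_cast (by omega : 0 < n)
  have hfr : ∀ w, fr n univ S w [] = n * (((pre w S).card : ℚ) - S.card) := by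
    intro w
    rw [fr_eq n univ S (by rw [card_univ, Fintype.card_fin])]
    rw [List.append_nil]
    rfl
  have hex : ∃ N, ∃ w, Over Ω w ∧ w.length = N ∧ fr n univ S w [] ≠ 0 := by
    refine ⟨_, t, ht, rfl, ?_⟩
    rw [hfr]
    refine mul_ne_zero hn.ne' ?_
    have h1 : pre t S = if q ∈ S then univ else ∅ := by
      ext x
      rw [mem_pre, htq]
      split_ifs with h2 <;> simp [h2]
    rw [h1]
    split_ifs
    · rw [card_univ, Fintype.card_fin]
      have : (S.card : ℚ) < n := by exact_mod_cast hSn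
      linarith
    · rw [card_empty]
      have : (0 : ℚ) < S.card := by exact_mod_cast hS0
      simp only [Nat.cast_zero]
      linarith
  set N := Nat.find hex with hNdef
  obtain ⟨w, h1, h2, h3⟩ := Nat.find_spec hex
  rw [← hNdef] at h2
  have hN : ∀ w (i : Fin n), Over Ω w → w.length < N → fr n univ S w ((fun _ => []) i) = 0 := by
    intro w i hw hlt
    by_contra hne
    exact Nat.find_min hex hlt ⟨w, hw, rfl, hne⟩
  have h4 : N + 1 ≤ n := short_word2 (W := fun _ => []) (i0 := q) hN h1 h2 h3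
  by_contra hcon
  push Not at hcon
  have hle : ∀ w, Over Ω w → w.length = N → (pre w S).card ≤ S.card := fun w hw hl =>
    hcon w hw (by omega)
  have hval : ∀ w, ∑ x, (if act w x ∈ S then (1 : ℝ) else 0) = (pre w S).card := by
    intro w
    rw [← sum_filter, sum_const, nsmul_eq_mul, mul_one]
    rfl
  have hlt : ∑ x : Fin n, avn Ω p N (fun y => if y ∈ S then (1 : ℝ) else 0) x < (S.card : ℝ) := by
    refine avn_lt h hpos univ (fun y => if y ∈ S then (1 : ℝ) else 0) (S.card : ℝ) N (fun x => x) ?_ ?_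
    · intro u hu hl
      show ∑ x, (if act u x ∈ S then (1 : ℝ) else 0) ≤ _
      rw [hval]
      exact_mod_cast hle u hu hl
    · refine ⟨w, h1, h2, ?_⟩
      show ∑ x, (if act w x ∈ S then (1 : ℝ) else 0) < _
      rw [hval]
      have h5 : (pre w S).card ≠ S.card := by
        intro h6
        apply h3
        rw [hfr, h6]
        ring
      exact_mod_cast lt_of_le_of_ne (hle w h1 h2) h5
  rw [h.sum_avn] at hlt
  have h7 : ∑ x : Fin n, (if x ∈ S then (1 : ℝ) else 0) = S.card := by
    rw [← sum_filter, sum_const, nsmul_eq_mul, mul_one]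
    congr 2
    ext x
    simp
  rw [h7] at hlt
  exact lt_irrefl _ hlt

/-- large fibres -/
theorem fibre (h : Bal Ω p) (hpos : ∀ f ∈ Ω, 0 < p f) {t : List (Fin n → Fin n)} (ht : Over Ω t) {q : Fin n}
    (htq : ∀ x, act t x = q) (m : ℕ) (hm1 : 1 ≤ m) (hmn : m ≤ n) :
    ∃ v, Over Ω v ∧ v.length ≤ (m - 1) * (n - 1) ∧
      ∃ c, m ≤ (univ.filter fun x => act v x = c).card := by
  classical
  induction m, hm1 using Nat.le_induction with
  | base =>
    refine ⟨[], fun f hf => by simp at hf, by simp, q, ?_⟩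
    exact card_pos.2 ⟨q, mem_filter.2 ⟨mem_univ _, rfl⟩⟩
  | succ m hm ih =>
    obtain ⟨v, hv, hlen, c, hc⟩ := ih (by omega)
    have hlen2 : (m - 1) * (n - 1) + (n - 1) = (m + 1 - 1) * (n - 1) := by
      obtain ⟨e, he⟩ : ∃ e, m = e + 1 := ⟨m - 1, by omega⟩
      rw [he, Nat.add_sub_cancel, Nat.add_sub_cancel]
      ring
    rcases Nat.lt_or_ge m (univ.filter fun x => act v x = c).card with h1 | h1
    · exact ⟨v, hv, by omega, c, h1⟩
    · obtain ⟨u, hu, hulen, hu2⟩ := extend h hpos ht htq (S := univ.filter fun x => act v x = c)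
        (by omega) (by omega)
      refine ⟨u ++ v, hu.append hv, ?_, c, ?_⟩
      · rw [List.length_append]
        omega
      · refine lt_of_lt_of_le (lt_of_le_of_lt hc hu2) (card_le_card ?_)
        intro x hx
        rw [mem_pre, mem_filter] at hx
        rw [mem_filter, act_append]
        exact ⟨mem_univ _, hx.2⟩

end Helper26.Eul
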