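import Pool.Agent.Helper26.Eul.Avg

/-!
# The Green function of a balanced random walk

`gr J b x` is the expected number of visits to `b` before time `J`, started at `x`.  If every proper
non-empty set of states has outflow at least `1/κ`, then the sorted values decrease by at most `κ`, and
their sum is `J`; hence `gr J b x ≤ √(2 κ J)`.
-/

open Finset

namespace Helper26.Eul

open Helper41.Circ

variable {n : ℕ} {Ω : Finset (Fin n → Fin n)} {p : (Fin n → Fin n) → ℝ}

/-- the indicator function of a state -/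
def ind (b : Fin n) (x : Fin n) : ℝ := if x = b then 1 else 0

/-- expected number of visits to `b` before time `J` -/
def gr (Ω : Finset (Fin n → Fin n)) (p : (Fin n → Fin n) → ℝ) (J : ℕ) (b x : Fin n) : ℝ :=
  ∑ i ∈ range J, avn Ω p i (ind b) x

/-- the outflow of a set of states -/
def flow (Ω : Finset (Fin n → Fin n)) (p : (Fin n → Fin n) → ℝ) (L : Finset (Fin n)) : ℝ :=
  ∑ f ∈ Ω, p f * ((L.filter fun x => f x ∉ L).card : ℝ)

theorem av_add (g g' : Fin n → ℝ) (x : Fin n) :
    av Ω p (fun y => g y + g' y) x = av Ω p g x + av Ω p g' x := by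
  unfold av
  rw [← sum_add_distrib]
  exact sum_congr rfl fun f _ => by ring

theorem av_gr (J : ℕ) (b x : Fin n) :
    av Ω p (gr Ω p J b) x = gr Ω p J b x - ind b x + avn Ω p J (ind b) x := by
  have h1 : av Ω p (gr Ω p J b) x = ∑ i ∈ range J, avn Ω p (i + 1) (ind b) x := by
    show ∑ f ∈ Ω, p f * ∑ i ∈ range J, avn Ω p i (ind b) (f x) =
      ∑ i ∈ range J, ∑ f ∈ Ω, p f * avn Ω p i (ind b) (f x)
    rw [sum_comm]
    exact sum_congr rfl fun f _ => mul_sum _ _ _
  have h2 := sum_range_succ' (fun i => avn Ω p i (ind b) x) J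
  rw [sum_range_succ] at h2
  rw [h1]
  have h3 : avn Ω p 0 (ind b) x = ind b x := rfl
  rw [h3] at h2
  unfold gr
  linarith

theorem ind_nonneg (b x : Fin n) : 0 ≤ ind b x := by
  unfold ind
  split_ifs <;> norm_num

theorem gr_nonneg (h : Bal Ω p) (J : ℕ) (b x : Fin n) : 0 ≤ gr Ω p J b x :=
  sum_nonneg fun i _ => avn_nonneg h (ind_nonneg b) i x

theorem sum_ind (b : Fin n) : ∑ x, ind b x = 1 := by
  unfold ind
  rw [sum_ite_eq']
  simp

theorem sum_gr (h : Bal Ω p) (J : ℕ) (b : Fin n) : ∑ x, gr Ω p J b x = J := by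
  unfold gr
  rw [sum_comm]
  have : ∀ i ∈ range J, ∑ x, avn Ω p i (ind b) x = 1 := by
    intro i _
    rw [h.sum_avn, sum_ind]
  rw [sum_congr rfl this, sum_const, card_range, nsmul_eq_mul, mul_one]

/-- inflow equals outflow -/
theorem inflow (h : Bal Ω p) (L : Finset (Fin n)) :
    ∑ f ∈ Ω, p f * ((Lᶜ.filter fun x => f x ∈ L).card : ℝ) = flow Ω p L := by
  classical
  have h1 : ∑ f ∈ Ω, p f * ((univ.filter fun x => f x ∈ L).card : ℝ) = L.card := by
    have h2 : ∀ f : Fin n → Fin n, ((univ.filter fun x => f x ∈ L).card : ℝ) =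
        ∑ y ∈ L, ((univ.filter fun x => f x = y).card : ℝ) := by
      intro f
      rw [← Nat.cast_sum]
      congr 1
      rw [card_eq_sum_card_fiberwise (f := f) (t := L) (fun x hx => by
        simpa using hx)]
      refine sum_congr rfl fun y hy => ?_
      congr 1
      ext x
      simp only [mem_filter, mem_univ, true_and]
      constructor
      · exact fun h => h.2
      · intro h
        exact ⟨by rw [h]; exact hy, h⟩
    simp only [h2, mul_sum]
    rw [sum_comm]
    rw [sum_congr rfl fun y _ => h.bal y]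
    simp
  have h3 : ∀ f : Fin n → Fin n, ((univ.filter fun x => f x ∈ L).card : ℝ) =
      ((Lᶜ.filter fun x => f x ∈ L).card : ℝ) + L.card - ((L.filter fun x => f x ∉ L).card : ℝ) := by
    intro f
    have e1 : (univ.filter fun x => f x ∈ L).card =
        (Lᶜ.filter fun x => f x ∈ L).card + (L.filter fun x => f x ∈ L).card := by
      rw [← card_union_of_disjoint]
      · congr 1
        ext x
        simp only [mem_filter, mem_univ, true_and, mem_union, mem_compl]
        tauto
      · rw [disjoint_left]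
        intro x hx hx'
        rw [mem_filter, mem_compl] at hx
        exact hx.1 (mem_filter.1 hx').1
    have e2 : L.card = (L.filter fun x => f x ∈ L).card + (L.filter fun x => f x ∉ L).card :=
      (card_filter_add_card_filter_not (s := L) (fun x => f x ∈ L)).symm
    have e1' : ((univ.filter fun x => f x ∈ L).card : ℝ) =
        ((Lᶜ.filter fun x => f x ∈ L).card : ℝ) + ((L.filter fun x => f x ∈ L).card : ℝ) := by
      exact_mod_cast e1
    have e2' : (L.card : ℝ) = ((L.filter fun x => f x ∈ L).card : ℝ) +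
        ((L.filter fun x => f x ∉ L).card : ℝ) := by
      exact_mod_cast e2
    linarith
  have h4 : ∑ f ∈ Ω, p f * ((univ.filter fun x => f x ∈ L).card : ℝ) =
      ∑ f ∈ Ω, p f * ((Lᶜ.filter fun x => f x ∈ L).card : ℝ) + (∑ f ∈ Ω, p f) * L.card -
        flow Ω p L := by
    unfold flow
    rw [sum_mul, ← sum_add_distrib, ← sum_sub_distrib]
    refine sum_congr rfl fun f _ => ?_
    rw [h3]
    ring
  rw [h1, h.one, one_mul] at h4
  linarith

/-- the gap between the values of the Green function on a set and on its complement -/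
theorem gap (h : Bal Ω p) {κ : ℝ} {L : Finset (Fin n)} (hfl : 1 ≤ κ * flow Ω p L) (J : ℕ)
    (b : Fin n) {α β : ℝ} (hα : ∀ x ∈ L, α ≤ gr Ω p J b x) (hβ : ∀ x ∉ L, gr Ω p J b x ≤ β) :
    α - β ≤ κ := by
  classical
  have hflow0 : 0 ≤ flow Ω p L := by
    unfold flow
    exact sum_nonneg fun f hf => mul_nonneg (h.nonneg f hf) (Nat.cast_nonneg _)
  have hκ : 0 < κ := by
    by_contra hcon
    push Not at hcon
    nlinarith
  set g : Fin n → ℝ := gr Ω p J b with hg
  -- upper bound
  have hup : ∑ x ∈ L, (g x - av Ω p g x) ≤ 1 := by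
    have h1 : ∀ x ∈ L, g x - av Ω p g x ≤ ind b x := by
      intro x _
      rw [hg, av_gr]
      have := avn_nonneg h (ind_nonneg b) J x
      linarith
    calc ∑ x ∈ L, (g x - av Ω p g x) ≤ ∑ x ∈ L, ind b x := sum_le_sum h1
      _ ≤ ∑ x, ind b x := sum_le_sum_of_subset_of_nonneg (subset_univ _) fun x _ _ => ind_nonneg b x
      _ = 1 := sum_ind b
  -- lower bound
  have hlow : (α - β) * flow Ω p L ≤ ∑ x ∈ L, (g x - av Ω p g x) := by
    rw [sum_sub_distrib]
    have e1 : ∑ x ∈ L, g x = ∑ f ∈ Ω, p f * ∑ x ∈ univ.filter (fun x => f x ∈ L), g (f x) := by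
      have h2 : ∀ f : Fin n → Fin n, ∑ x ∈ univ.filter (fun x => f x ∈ L), g (f x) =
          ∑ y ∈ L, ((univ.filter fun x => f x = y).card : ℝ) * g y := by
        intro f
        rw [← sum_fiberwise_of_maps_to (s := univ.filter (fun x => f x ∈ L)) (t := L) (g := f)
          (fun x hx => (mem_filter.1 hx).2)]
        refine sum_congr rfl fun y hy => ?_
        rw [card_eq_sum_ones, Nat.cast_sum, sum_mul]
        have h3 : (filter (fun x => f x = y) (filter (fun x => f x ∈ L) univ)) =
            filter (fun x => f x = y) univ := by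
          ext x
          simp only [mem_filter, mem_univ, true_and]
          constructor
          · exact fun h => h.2
          · intro h
            exact ⟨by rw [h]; exact hy, h⟩
        rw [h3]
        refine sum_congr rfl fun x hx => ?_
        rw [(mem_filter.1 hx).2]
        simp
      simp only [h2, mul_sum]
      rw [sum_comm]
      refine sum_congr rfl fun y _ => ?_
      have h4 := h.bal y
      calc g y = (∑ f ∈ Ω, p f * ((univ.filter fun x => f x = y).card : ℝ)) * g y := by
            rw [h4, one_mul]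
        _ = _ := by
            rw [sum_mul]
            exact sum_congr rfl fun f _ => by ring
    have e2 : ∑ x ∈ L, av Ω p g x = ∑ f ∈ Ω, p f * ∑ x ∈ L, g (f x) := by
      unfold av
      rw [sum_comm]
      exact sum_congr rfl fun f _ => (mul_sum _ _ _).symm
    rw [e1, e2, ← sum_sub_distrib]
    have e3 : ∀ f ∈ Ω, p f * ∑ x ∈ univ.filter (fun x => f x ∈ L), g (f x) -
        p f * ∑ x ∈ L, g (f x) ≥ α * (p f * ((Lᶜ.filter fun x => f x ∈ L).card : ℝ)) -
          β * (p f * ((L.filter fun x => f x ∉ L).card : ℝ)) := by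
      intro f hf
      have s1 : ∑ x ∈ univ.filter (fun x => f x ∈ L), g (f x) =
          ∑ x ∈ Lᶜ.filter (fun x => f x ∈ L), g (f x) + ∑ x ∈ L.filter (fun x => f x ∈ L), g (f x) := by
        rw [← sum_union]
        · refine sum_congr ?_ fun _ _ => rfl
          ext x
          simp only [mem_filter, mem_univ, true_and, mem_union, mem_compl]
          tauto
        · rw [disjoint_left]
          intro x hx hx'
          rw [mem_filter, mem_compl] at hx
          exact hx.1 (mem_filter.1 hx').1
      have s2 : ∑ x ∈ L, g (f x) = ∑ x ∈ L.filter (fun x => f x ∈ L), g (f x) +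
          ∑ x ∈ L.filter (fun x => f x ∉ L), g (f x) :=
        (sum_filter_add_sum_filter_not L (fun x => f x ∈ L) (fun x => g (f x))).symm
      have s3 : α * ((Lᶜ.filter fun x => f x ∈ L).card : ℝ) ≤
          ∑ x ∈ Lᶜ.filter (fun x => f x ∈ L), g (f x) := by
        rw [mul_comm, ← nsmul_eq_mul]
        exact card_nsmul_le_sum _ _ _ fun x hx => hα _ (mem_filter.1 hx).2
      have s4 : ∑ x ∈ L.filter (fun x => f x ∉ L), g (f x) ≤
          β * ((L.filter fun x => f x ∉ L).card : ℝ) := by
        rw [mul_comm, ← nsmul_eq_mul]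
        exact sum_le_card_nsmul _ _ _ fun x hx => hβ _ (mem_filter.1 hx).2
      rw [s1, s2]
      have hpf := (h.nonneg f hf)
      nlinarith [mul_le_mul_of_nonneg_left s3 hpf, mul_le_mul_of_nonneg_left s4 hpf]
    have e4 := sum_le_sum e3
    refine le_trans (le_of_eq ?_) e4
    rw [sum_sub_distrib, ← mul_sum, ← mul_sum, inflow h L]
    unfold flow
    ring
  rcases le_or_gt α β with h5 | h5
  · linarith
  · have h6 : (α - β) * flow Ω p L ≤ 1 := hlow.trans hup
    have h7 : (α - β) * 1 ≤ (α - β) * (κ * flow Ω p L) :=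
      mul_le_mul_of_nonneg_left hfl (by linarith)
    nlinarith

/-- upper sets of the Green function -/
theorem upper (h : Bal Ω p) {κ : ℝ}
    (hfl : ∀ L : Finset (Fin n), L.Nonempty → L ≠ univ → 1 ≤ κ * flow Ω p L) (J : ℕ)
    (b x0 : Fin n) (hx0 : ∀ x, gr Ω p J b x ≤ gr Ω p J b x0) (K : ℕ) (hK : K < n) :
    ∃ L : Finset (Fin n), L.card = K + 1 ∧ (∀ x ∈ L, gr Ω p J b x0 - κ * K ≤ gr Ω p J b x) ∧
      (∀ x ∈ L, ∀ y ∉ L, gr Ω p J b y ≤ gr Ω p J b x) ∧
      (K + 1) * gr Ω p J b x0 - κ * (K * (K + 1) / 2) ≤ ∑ x ∈ L, gr Ω p J b x := by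
  classical
  induction K with
  | zero =>
    refine ⟨{x0}, by simp, ?_, ?_, ?_⟩
    · intro x hx
      rw [mem_singleton] at hx
      rw [hx]
      simp
    · intro x hx y _
      rw [mem_singleton] at hx
      rw [hx]
      exact hx0 y
    · simp
  | succ K ih =>
    obtain ⟨L, h1, h2, h3, h4⟩ := ih (by omega)
    have hne : L.Nonempty := card_pos.1 (by omega)
    have hnu : L ≠ univ := by
      intro hu
      rw [hu, card_univ, Fintype.card_fin] at h1
      omega
    have hc : (Lᶜ).Nonempty := by
      rw [nonempty_iff_ne_empty]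
      intro hce
      exact hnu (by rwa [compl_eq_empty_iff] at hce)
    obtain ⟨y, hy, hymax⟩ := exists_max_image Lᶜ (gr Ω p J b) hc
    rw [mem_compl] at hy
    have hgap := gap h (hfl L hne hnu) J b h2 (β := gr Ω p J b y) fun x hx =>
      hymax x (mem_compl.2 hx)
    refine ⟨insert y L, by rw [card_insert_of_notMem hy, h1], ?_, ?_, ?_⟩
    · intro x hx
      push_cast
      rcases mem_insert.1 hx with h5 | h5
      · rw [h5]
        linarith
      · have := h2 x h5
        have hκ : 0 ≤ κ := by
          have h6 := hfl L hne hnu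
          have h7 : 0 ≤ flow Ω p L := by
            unfold flow
            exact sum_nonneg fun f hf => mul_nonneg (h.nonneg f hf) (Nat.cast_nonneg _)
          by_contra hcon
          push Not at hcon
          nlinarith
        linarith
    · intro x hx z hz
      rw [mem_insert, not_or] at hz
      rcases mem_insert.1 hx with h5 | h5
      · rw [h5]
        exact hymax z (mem_compl.2 hz.2)
      · exact h3 x h5 z hz.2
    · rw [sum_insert hy]
      push_cast
      nlinarith

/-- **bound for the Green function** -/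
theorem gr_le (h : Bal Ω p) {κ : ℝ}
    (hfl : ∀ L : Finset (Fin n), L.Nonempty → L ≠ univ → 1 ≤ κ * flow Ω p L) (hκ : 0 < κ) {J : ℕ}
    (hJ : 2 * (J : ℝ) < κ * n ^ 2) (b x : Fin n) : (gr Ω p J b x) ^ 2 ≤ 2 * κ * J := by
  classical
  obtain ⟨x0, _, hx0⟩ := exists_max_image univ (gr Ω p J b) ⟨x, mem_univ x⟩
  have hg0 := gr_nonneg h J b x
  have hle : gr Ω p J b x ≤ gr Ω p J b x0 := hx0 x (mem_univ x)
  suffices hs : (gr Ω p J b x0) ^ 2 ≤ 2 * κ * J by
    exact (pow_le_pow_left₀ hg0 hle 2).trans hs
  set M := gr Ω p J b x0 with hM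
  have hM0 : 0 ≤ M := hg0.trans hle
  by_contra hcon
  push Not at hcon
  set s := Real.sqrt (2 * κ * J) with hs
  have hJ0 : (0 : ℝ) ≤ J := Nat.cast_nonneg J
  have hs0 : 0 ≤ s := Real.sqrt_nonneg _
  have hs2 : s ^ 2 = 2 * κ * J := Real.sq_sqrt (by positivity)
  have hsM : s < M := by
    by_contra hc
    push Not at hc
    have := pow_le_pow_left₀ hM0 hc 2
    linarith
  -- the number of steps
  have hsn : s < κ * n := by
    have h1 : s ^ 2 < (κ * n) ^ 2 := by
      rw [hs2]
      nlinarith
    exact lt_of_pow_lt_pow_left₀ 2 (by positivity) h1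
  set K := ⌊s / κ⌋₊ with hK
  have hK1 : (K : ℝ) ≤ s / κ := Nat.floor_le (by positivity)
  have hK2 : s / κ < K + 1 := Nat.lt_floor_add_one _
  have hKn : K < n := by
    have : (K : ℝ) < n := by
      refine lt_of_le_of_lt hK1 ?_
      rw [div_lt_iff₀ hκ]
      linarith
    exact_mod_cast this
  obtain ⟨L, h1, -, -, h4⟩ := upper h hfl J b x0 (fun y => hx0 y (mem_univ y)) K hKn
  have h5 : ∑ y ∈ L, gr Ω p J b y ≤ J := by
    rw [← sum_gr h J b]
    exact sum_le_sum_of_subset_of_nonneg (subset_univ _) fun y _ _ => gr_nonneg h J b y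
  rw [← hM] at h4
  have hK1' : κ * K ≤ s := by
    have := mul_le_mul_of_nonneg_left hK1 hκ.le
    rwa [mul_div_cancel₀ _ hκ.ne'] at this
  have hK2' : s < κ * (K + 1) := by
    have := mul_lt_mul_of_pos_left hK2 hκ
    rwa [mul_div_cancel₀ _ hκ.ne'] at this
  have hKnn : (0 : ℝ) ≤ K := Nat.cast_nonneg K
  have h6 : (K + 1) * M - κ * (K * (K + 1) / 2) ≤ J := h4.trans h5
  have h7 : (K + 1) * s < (K + 1) * M := mul_lt_mul_of_pos_left hsM (by positivity)
  -- s = κ K + θ
  have h8 : J = s ^ 2 / (2 * κ) := by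
    rw [hs2]
    field_simp
  have h9 : s ^ 2 / (2 * κ) ≤ (K + 1) * s - κ * (K * (K + 1) / 2) := by
    rw [div_le_iff₀ (by positivity)]
    nlinarith [mul_nonneg (sub_nonneg.2 hK1') (sub_nonneg.2 hK2'.le), mul_nonneg hκ.le hKnn]
  linarith

end Helper26.Eul
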