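import Pool.Agent.Helper26.Eul.Green

/-!
# Synchronization of `k`-sets in automata with a balanced law on the letters
-/

open Finset

namespace Helper26.Eul

open Helper41.Circ

variable {n : ℕ} {Ω : Finset (Fin n → Fin n)} {p : (Fin n → Fin n) → ℝ}

theorem avn_sum (i : ℕ) (B : Finset (Fin n)) (x : Fin n) :
    avn Ω p i (fun y => if y ∈ B then (1 : ℝ) else 0) x = ∑ b ∈ B, avn Ω p i (ind b) x := by
  induction i generalizing x with
  | zero =>
    show (if x ∈ B then (1 : ℝ) else 0) = ∑ b ∈ B, if x = b then (1 : ℝ) else 0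
    rw [sum_ite_eq]
  | succ i ih =>
    show ∑ f ∈ Ω, p f * avn Ω p i (fun y => if y ∈ B then (1 : ℝ) else 0) (f x) =
      ∑ b ∈ B, ∑ f ∈ Ω, p f * avn Ω p i (ind b) (f x)
    rw [sum_comm]
    refine sum_congr rfl fun f _ => ?_
    rw [ih, mul_sum]

/-- **placing the tokens**: a short word moves at least `j + 1` states of `T` out of the small set
`B`. -/
theorem place (h : Bal Ω p) {κ : ℝ}
    (hfl : ∀ L : Finset (Fin n), L.Nonempty → L ≠ univ → 1 ≤ κ * flow Ω p L) (hκ : 0 < κ) {J : ℕ}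
    (hJ : 2 * (J : ℝ) < κ * n ^ 2) {T B : Finset (Fin n)} {j m : ℕ} (hj : j < T.card)
    (hB : B.card ≤ m)
    (hJ2 : 2 * κ * ((T.card : ℝ) * m) ^ 2 < ((T.card : ℝ) - j) ^ 2 * J) :
    ∃ w, Over Ω w ∧ w.length < J ∧ j + 1 ≤ (T.filter fun x => act w x ∉ B).card := by
  classical
  by_contra hcon
  push Not at hcon
  set c : ℝ := (T.card : ℝ) - j with hc
  have hc0 : 0 < c := by
    have : (j : ℝ) < T.card := by exact_mod_cast hj
    linarith
  have h1 : ∀ i < J, c ≤ ∑ t ∈ T, avn Ω p i (fun y => if y ∈ B then (1 : ℝ) else 0) t := by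
    intro i hi
    refine avn_ge h T (fun y => if y ∈ B then (1 : ℝ) else 0) c i (fun x => x) fun w hw hl => ?_
    have h2 := hcon w hw (by omega)
    have h3 := card_filter_add_card_filter_not (s := T) (fun x => act w x ∈ B)
    have h4 : T.card ≤ (T.filter fun x => act w x ∈ B).card + j := by omega
    have h5 : (T.card : ℝ) ≤ ((T.filter fun x => act w x ∈ B).card : ℝ) + j := by exact_mod_cast h4
    show c ≤ ∑ t ∈ T, if act w t ∈ B then (1 : ℝ) else 0
    rw [← sum_filter, sum_const, nsmul_eq_mul, mul_one]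
    linarith
  have h2 : c * J ≤ ∑ t ∈ T, ∑ b ∈ B, gr Ω p J b t := by
    have h3 : ∑ i ∈ range J, c ≤ ∑ i ∈ range J, ∑ t ∈ T, ∑ b ∈ B, avn Ω p i (ind b) t := by
      refine sum_le_sum fun i hi => ?_
      have := h1 i (mem_range.1 hi)
      simpa only [avn_sum] using this
    rw [sum_const, card_range, nsmul_eq_mul, mul_comm] at h3
    refine h3.trans (le_of_eq ?_)
    rw [sum_comm]
    refine sum_congr rfl fun t _ => ?_
    rw [sum_comm]
    rfl
  have hJ0 : (0 : ℝ) ≤ J := Nat.cast_nonneg J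
  have h3 : ∀ b t, gr Ω p J b t ≤ Real.sqrt (2 * κ * J) := fun b t =>
    Real.le_sqrt_of_sq_le (gr_le h hfl hκ hJ b t)
  have h4 : ∑ t ∈ T, ∑ b ∈ B, gr Ω p J b t ≤ (T.card : ℝ) * m * Real.sqrt (2 * κ * J) := by
    calc ∑ t ∈ T, ∑ b ∈ B, gr Ω p J b t ≤ ∑ t ∈ T, ∑ b ∈ B, Real.sqrt (2 * κ * J) :=
          sum_le_sum fun t _ => sum_le_sum fun b _ => h3 b t
      _ = (T.card : ℝ) * B.card * Real.sqrt (2 * κ * J) := by
          rw [sum_const, sum_const, nsmul_eq_mul, nsmul_eq_mul]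
          ring
      _ ≤ _ := by
          have : (B.card : ℝ) ≤ m := by exact_mod_cast hB
          gcongr
  have h5 : (c * J) ^ 2 ≤ ((T.card : ℝ) * m) ^ 2 * (2 * κ * J) := by
    have h6 : c * J ≤ (T.card : ℝ) * m * Real.sqrt (2 * κ * J) := h2.trans h4
    have h7 := pow_le_pow_left₀ (by positivity) h6 2
    rwa [mul_pow ((T.card : ℝ) * m), Real.sq_sqrt (by positivity)] at h7
  have hJpos : (0 : ℝ) < J := by
    by_contra hcon2
    push Not at hcon2
    have : (J : ℝ) = 0 := le_antisymm hcon2 hJ0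
    rw [this] at hJ2
    have : (0 : ℝ) ≤ 2 * κ * ((T.card : ℝ) * m) ^ 2 := by positivity
    linarith
  have h6 : c ^ 2 * J ≤ 2 * κ * ((T.card : ℝ) * m) ^ 2 := by
    have h7 : (c ^ 2 * J) * J ≤ (2 * κ * ((T.card : ℝ) * m) ^ 2) * J := by
      calc (c ^ 2 * J) * J = (c * J) ^ 2 := by ring
        _ ≤ _ := h5
        _ = _ := by ring
    exact le_of_mul_le_mul_right h7 hJpos
  linarith

/-- general bound with a free parameter `m`; the law `p'` is used to enlarge a fibre, the law `p` to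
place the tokens -/
theorem general {p' : (Fin n → Fin n) → ℝ} (h' : Bal Ω p') (hpos : ∀ f ∈ Ω, 0 < p' f)
    (h : Bal Ω p) {κ : ℝ}
    (hfl : ∀ L : Finset (Fin n), L.Nonempty → L ≠ univ → 1 ≤ κ * flow Ω p L) (hκ : 0 < κ)
    {t : List (Fin n → Fin n)} (ht : Over Ω t) {q : Fin n} (htq : ∀ x, act t x = q)
    {T : Finset (Fin n)} {j m J : ℕ} (hj : j < T.card) (hm : m < n)
    (hJ : 2 * ((J + 1 : ℕ) : ℝ) < κ * n ^ 2)
    (hJ2 : 2 * κ * ((T.card : ℝ) * m) ^ 2 < ((T.card : ℝ) - j) ^ 2 * (J + 1 : ℕ)) :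
    ∃ w, Over Ω w ∧ w.length ≤ J + (n - m - 1) * (n - 1) ∧
      ∃ c, j + 1 ≤ (T.filter fun x => act w x = c).card := by
  classical
  obtain ⟨v, hv, hvl, c, hc⟩ := fibre h' hpos ht htq (n - m) (by omega) (by omega)
  set B : Finset (Fin n) := univ.filter fun x => act v x ≠ c with hBdef
  have hB : B.card ≤ m := by
    have h1 := card_filter_add_card_filter_not (s := (univ : Finset (Fin n)))
      (fun x => act v x = c)
    rw [card_univ, Fintype.card_fin] at h1
    have h2 : B.card = (univ.filter fun x => ¬ act v x = c).card := rfl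
    omega
  obtain ⟨u, hu, hul, hu2⟩ := place h hfl hκ hJ hj hB hJ2
  refine ⟨u ++ v, hu.append hv, ?_, c, hu2.trans (card_le_card ?_)⟩
  · rw [List.length_append]
    omega
  · intro x hx
    rw [mem_filter] at hx ⊢
    refine ⟨hx.1, ?_⟩
    rw [act_append]
    by_contra hne
    exact hx.2 (mem_filter.2 ⟨mem_univ _, hne⟩)

/-- **main theorem** -/
theorem main {p' : (Fin n → Fin n) → ℝ} (h' : Bal Ω p') (hpos : ∀ f ∈ Ω, 0 < p' f)
    (h : Bal Ω p) {κ : ℝ}
    (hfl : ∀ L : Finset (Fin n), L.Nonempty → L ≠ univ → 1 ≤ κ * flow Ω p L) (hκ : 1 ≤ κ)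
    {t : List (Fin n → Fin n)} (ht : Over Ω t) {q : Fin n} (htq : ∀ x, act t x = q)
    {T : Finset (Fin n)} {j : ℕ} (hj : j < T.card) :
    ∃ w, Over Ω w ∧ (w.length : ℝ) ≤ (1 - (1 - (j : ℝ) / T.card) ^ 2 / (8 * κ)) * n ^ 2 ∧
      ∃ c, j + 1 ≤ (T.filter fun x => act w x = c).card := by
  classical
  have hκ0 : 0 < κ := by linarith
  have hT0 : (0 : ℝ) < T.card := by
    have : 0 < T.card := by omega
    exact_mod_cast this
  have hjT : (j : ℝ) < T.card := by exact_mod_cast hj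
  set θ : ℝ := 1 - (j : ℝ) / T.card with hθ
  have hθ0 : 0 < θ := by
    have : (j : ℝ) / T.card < 1 := by rwa [div_lt_one hT0]
    linarith
  have hθ1 : θ ≤ 1 := by
    have : 0 ≤ (j : ℝ) / T.card := by positivity
    linarith
  have hθT : θ * T.card = (T.card : ℝ) - j := by
    rw [hθ]
    field_simp
  have hn0 : 0 < n := by
    rcases Nat.eq_zero_or_pos n with h0 | h0
    · subst h0
      exact q.elim0
    · exact h0
  have hθ2 : θ ^ 2 ≤ 1 := by nlinarith
  have hfrac : θ ^ 2 / (8 * κ) ≤ 1 / 8 := by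
    rw [div_le_iff₀ (by positivity)]
    linarith
  rcases Nat.lt_or_ge n 2 with h2 | h2
  · -- one state
    have hn1 : n = 1 := by omega
    subst hn1
    refine ⟨[], fun f hf => by simp at hf, ?_, 0, ?_⟩
    · simp only [List.length_nil, Nat.cast_zero, Nat.cast_one, one_pow, mul_one]
      linarith
    · have : (T.filter fun x => act [] x = 0) = T := by
        ext x
        simp only [mem_filter, and_iff_left_iff_imp]
        intro _
        exact Subsingleton.elim _ _
      rw [this]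
      exact hj
  · have hn2 : (2 : ℝ) ≤ n := by exact_mod_cast h2
    have hnpos : (0 : ℝ) < n := by linarith
    set y : ℝ := n * θ ^ 2 / (4 * κ) with hy
    have hy0 : 0 ≤ y := by positivity
    have hyn : y ≤ n / 4 := by
      rw [hy, div_le_iff₀ (by positivity)]
      nlinarith
    set m := ⌊y⌋₊ with hm
    have hm1 : (m : ℝ) ≤ y := Nat.floor_le hy0
    have hm2 : y < m + 1 := Nat.lt_floor_add_one _
    have hmn : m < n := by
      have : (m : ℝ) < n := by linarith
      exact_mod_cast this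
    have hm0 : (0 : ℝ) ≤ m := Nat.cast_nonneg m
    set a : ℝ := 2 * κ * m ^ 2 / θ ^ 2 with ha
    have ha0 : 0 ≤ a := by positivity
    set J := ⌊a⌋₊ with hJdef
    have hJ1 : (J : ℝ) ≤ a := Nat.floor_le ha0
    have hJ2 : a < J + 1 := Nat.lt_floor_add_one _
    -- a ≤ n m / 2
    have hya : y * (4 * κ) = n * θ ^ 2 := by
      rw [hy]
      field_simp
    have ha1 : a ≤ n * m / 2 := by
      rw [ha, div_le_iff₀ (by positivity)]
      nlinarith [mul_le_mul_of_nonneg_left hm1 (mul_nonneg hκ0.le hm0)]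
    have hcond1 : 2 * ((J + 1 : ℕ) : ℝ) < κ * n ^ 2 := by
      push_cast
      have h3 : (n : ℝ) * m ≤ n * (n / 4) := mul_le_mul_of_nonneg_left (hm1.trans hyn) hnpos.le
      have h4 : (n : ℝ) ^ 2 ≤ κ * n ^ 2 := by nlinarith [sq_nonneg (n : ℝ)]
      nlinarith
    have hcond2 : 2 * κ * ((T.card : ℝ) * m) ^ 2 < ((T.card : ℝ) - j) ^ 2 * (J + 1 : ℕ) := by
      rw [← hθT]
      push_cast
      have h5 : 2 * κ * m ^ 2 < (J + 1) * θ ^ 2 := by
        rw [ha, div_lt_iff₀ (by positivity)] at hJ2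
        exact hJ2
      have h6 := mul_lt_mul_of_pos_left h5 (by positivity : (0 : ℝ) < (T.card : ℝ) ^ 2)
      calc 2 * κ * ((T.card : ℝ) * m) ^ 2 = (T.card : ℝ) ^ 2 * (2 * κ * m ^ 2) := by ring
        _ < (T.card : ℝ) ^ 2 * ((J + 1) * θ ^ 2) := h6
        _ = _ := by ring
    obtain ⟨w, hw, hwl, hwc⟩ := general h' hpos h hfl hκ0 ht htq hj hmn hcond1 hcond2
    refine ⟨w, hw, ?_, hwc⟩
    have h7 : (w.length : ℝ) ≤ J + ((n : ℝ) - m - 1) * (n - 1) := by
      have h8 : ((J + (n - m - 1) * (n - 1) : ℕ) : ℝ) = J + ((n : ℝ) - m - 1) * (n - 1) := by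
        rw [Nat.cast_add, Nat.cast_mul, Nat.sub_sub, Nat.cast_sub (by omega : m + 1 ≤ n),
          Nat.cast_sub (by omega : 1 ≤ n)]
        push_cast
        ring
      rw [← h8]
      exact_mod_cast hwl
    have h9 : (1 - θ ^ 2 / (8 * κ)) * (n : ℝ) ^ 2 = n ^ 2 - n * y / 2 := by
      rw [hy]
      field_simp
      ring
    rw [h9]
    nlinarith

/-! ### Eulerian automata -/

/-- the uniform law on the letters of an Eulerian automaton is balanced -/
theorem bal_of_eulerian (hE : ∀ y : Fin n, ∑ f ∈ Ω, (univ.filter fun x => f x = y).card = Ω.card)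
    (hΩ : 0 < Ω.card) : Bal Ω (fun _ => (Ω.card : ℝ)⁻¹) := by
  have h0 : (0 : ℝ) < Ω.card := by exact_mod_cast hΩ
  refine ⟨fun f _ => by positivity, ?_, fun y => ?_⟩
  · rw [sum_const, nsmul_eq_mul, mul_inv_cancel₀ h0.ne']
  · rw [← mul_sum, ← Nat.cast_sum, hE y, inv_mul_cancel₀ h0.ne']

/-- a proper non-empty set of states of a synchronizing automaton has a way out or in -/
theorem exists_cross {t : List (Fin n → Fin n)} (ht : Over Ω t) {q : Fin n}
    (htq : ∀ x, act t x = q) {L : Finset (Fin n)} (h0 : L.Nonempty) (h1 : L ≠ univ) :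
    ∃ f ∈ Ω, ∃ x, (x ∈ L ∧ f x ∉ L) ∨ (x ∉ L ∧ f x ∈ L) := by
  classical
  obtain ⟨a, ha⟩ := h0
  obtain ⟨b, hb⟩ : ∃ b, b ∉ L := by
    by_contra hcon
    push Not at hcon
    exact h1 (eq_univ_iff_forall.2 hcon)
  by_contra hcon
  push Not at hcon
  have key : ∀ w : List (Fin n → Fin n), Over Ω w → ∀ x, (x ∈ L ↔ act w x ∈ L) := by
    intro w
    induction w with
    | nil => intro _ x; rfl
    | cons f w ih =>
      intro hw x
      have hf : f ∈ Ω := hw f (by simp)
      rw [act_cons, ← ih (fun a ha => hw a (by simp [ha])) (f x)]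
      have := hcon f hf x
      exact ⟨fun h => this.1 h, fun h => by
        by_contra h2
        exact this.2 h2 h⟩
  have e1 := (key t ht a).1 ha
  rw [htq] at e1
  have e2 := (key t ht b).2
  rw [htq] at e2
  exact hb (e2 e1)

theorem flow_ge (h : Bal Ω p) {c : ℝ} (hc : ∀ f ∈ Ω, c ≤ p f) {t : List (Fin n → Fin n)}
    (ht : Over Ω t) {q : Fin n} (htq : ∀ x, act t x = q) {L : Finset (Fin n)} (h0 : L.Nonempty)
    (h1 : L ≠ univ) : c ≤ flow Ω p L := by
  classical
  obtain ⟨f, hf, x, hx⟩ := exists_cross ht htq h0 h1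
  rcases hx with ⟨hx, hfx⟩ | ⟨hx, hfx⟩
  · have h2 : (1 : ℝ) ≤ ((L.filter fun x => f x ∉ L).card : ℝ) := by
      have : 0 < (L.filter fun x => f x ∉ L).card := card_pos.2 ⟨x, mem_filter.2 ⟨hx, hfx⟩⟩
      exact_mod_cast this
    calc c ≤ p f := hc f hf
      _ ≤ p f * ((L.filter fun x => f x ∉ L).card : ℝ) := by
          have := h.nonneg f hf
          nlinarith
      _ ≤ flow Ω p L := by
          unfold flow
          exact single_le_sum (f := fun f => p f * ((L.filter fun x => f x ∉ L).card : ℝ))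
            (fun g hg => mul_nonneg (h.nonneg g hg) (Nat.cast_nonneg _)) hf
  · rw [← inflow h L]
    have h2 : (1 : ℝ) ≤ ((Lᶜ.filter fun x => f x ∈ L).card : ℝ) := by
      have : 0 < (Lᶜ.filter fun x => f x ∈ L).card :=
        card_pos.2 ⟨x, mem_filter.2 ⟨mem_compl.2 hx, hfx⟩⟩
      exact_mod_cast this
    calc c ≤ p f := hc f hf
      _ ≤ p f * ((Lᶜ.filter fun x => f x ∈ L).card : ℝ) := by
          have := h.nonneg f hf
          nlinarith
      _ ≤ _ :=
          single_le_sum (f := fun f => p f * ((Lᶜ.filter fun x => f x ∈ L).card : ℝ))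
            (fun g hg => mul_nonneg (h.nonneg g hg) (Nat.cast_nonneg _)) hf

end Helper26.Eul
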