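import Pool.Agent.Helper26.Eul.Main

/-!
# Counting only the letters which move a token

Letters which move none of the tokens can be left out of a word.  This gives bounds which do not
depend on the number of letters but on the number of letters moving a single state.
-/

open Finset

namespace Helper26.Eul

open Helper41.Circ

variable {n : ℕ} {Ω : Finset (Fin n → Fin n)} {p : (Fin n → Fin n) → ℝ}

/-- additive cost of a word for one token -/
def cst (φ : (Fin n → Fin n) → Fin n → ℝ) : List (Fin n → Fin n) → Fin n → ℝ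
  | [], _ => 0
  | f :: w, x => φ f x + cst φ w (f x)

/-- expected additive cost of a random word of length `i` -/
def avc (Ω : Finset (Fin n → Fin n)) (p : (Fin n → Fin n) → ℝ) (φ : (Fin n → Fin n) → Fin n → ℝ) :
    ℕ → Fin n → ℝ
  | 0, _ => 0
  | i + 1, x => ∑ f ∈ Ω, p f * (φ f x + avc Ω p φ i (f x))

/-- indicator of a move -/
def mv (f : Fin n → Fin n) (x : Fin n) : ℝ := if f x = x then 0 else 1

/-- indicator of a set, as a cost -/
def inB (B : Finset (Fin n)) (_ : Fin n → Fin n) (x : Fin n) : ℝ := if x ∈ B then 1 else 0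

theorem mv_nonneg (f : Fin n → Fin n) (x : Fin n) : 0 ≤ mv f x := by
  unfold mv
  split_ifs <;> norm_num

theorem inB_nonneg (B : Finset (Fin n)) (f : Fin n → Fin n) (x : Fin n) : 0 ≤ inB B f x := by
  unfold inB
  split_ifs <;> norm_num

theorem cst_nonneg {φ : (Fin n → Fin n) → Fin n → ℝ} (hφ : ∀ f x, 0 ≤ φ f x)
    (w : List (Fin n → Fin n)) (x : Fin n) : 0 ≤ cst φ w x := by
  induction w generalizing x with
  | nil => exact le_rfl
  | cons f w ih => exact add_nonneg (hφ f x) (ih _)

theorem cst_lin (a b : ℝ) (φ ψ : (Fin n → Fin n) → Fin n → ℝ) (w : List (Fin n → Fin n))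
    (x : Fin n) : cst (fun f x => a * φ f x + b * ψ f x) w x = a * cst φ w x + b * cst ψ w x := by
  induction w generalizing x with
  | nil => simp [cst]
  | cons f w ih =>
    simp only [cst, ih]
    ring

theorem avc_ge (h : Bal Ω p) {ι : Type*} (s : Finset ι) (φ : (Fin n → Fin n) → Fin n → ℝ) (c : ℝ)
    (i : ℕ) (x : ι → Fin n)
    (hw : ∀ w, Over Ω w → w.length = i → c ≤ ∑ t ∈ s, cst φ w (x t)) :
    c ≤ ∑ t ∈ s, avc Ω p φ i (x t) := by
  induction i generalizing x c with
  | zero => exact hw [] (fun f hf => by simp at hf) rfl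
  | succ i ih =>
    show c ≤ ∑ t ∈ s, ∑ f ∈ Ω, p f * (φ f (x t) + avc Ω p φ i (f (x t)))
    rw [sum_comm]
    have h1 : ∀ f ∈ Ω, p f * c ≤ ∑ t ∈ s, p f * (φ f (x t) + avc Ω p φ i (f (x t))) := by
      intro f hf
      rw [← mul_sum]
      refine mul_le_mul_of_nonneg_left ?_ (h.nonneg f hf)
      rw [sum_add_distrib]
      have := ih (c - ∑ t ∈ s, φ f (x t)) (fun t => f (x t)) fun w hw1 hw2 => by
        have h3 := hw (f :: w) (by
          intro a ha
          rcases List.mem_cons.1 ha with h2 | h2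
          · rw [h2]; exact hf
          · exact hw1 a h2) (by simp [hw2])
        simp only [cst, sum_add_distrib] at h3
        linarith
      linarith
    calc c = ∑ f ∈ Ω, p f * c := by rw [← sum_mul, h.one, one_mul]
      _ ≤ _ := sum_le_sum h1

theorem avc_eq (φ : (Fin n → Fin n) → Fin n → ℝ) (i : ℕ) (x : Fin n) :
    avc Ω p φ i x = ∑ l ∈ range i, avn Ω p l (fun y => ∑ f ∈ Ω, p f * φ f y) x := by
  induction i generalizing x with
  | zero => rfl
  | succ i ih =>
    rw [sum_range_succ']
    show ∑ f ∈ Ω, p f * (φ f x + avc Ω p φ i (f x)) = _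
    have h1 : ∑ f ∈ Ω, p f * (φ f x + avc Ω p φ i (f x)) =
        ∑ f ∈ Ω, p f * φ f x + ∑ f ∈ Ω, p f * avc Ω p φ i (f x) := by
      rw [← sum_add_distrib]
      exact sum_congr rfl fun f _ => by ring
    rw [h1, add_comm]
    congr 1
    simp only [ih, mul_sum]
    rw [sum_comm]
    refine sum_congr rfl fun l _ => ?_
    show _ = ∑ f ∈ Ω, p f * avn Ω p l _ (f x)
    rfl

theorem avn_le_of_le (h : Bal Ω p) {g g' : Fin n → ℝ} {a e : ℝ} (hg : ∀ x, g x ≤ a * g' x + e)
    (l : ℕ) (x : Fin n) : avn Ω p l g x ≤ a * avn Ω p l g' x + e := by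
  induction l generalizing x with
  | zero => exact hg x
  | succ l ih =>
    show ∑ f ∈ Ω, p f * avn Ω p l g (f x) ≤ a * ∑ f ∈ Ω, p f * avn Ω p l g' (f x) + e
    calc ∑ f ∈ Ω, p f * avn Ω p l g (f x)
        ≤ ∑ f ∈ Ω, p f * (a * avn Ω p l g' (f x) + e) :=
          sum_le_sum fun f hf => mul_le_mul_of_nonneg_left (ih (f x)) (h.nonneg f hf)
      _ = a * ∑ f ∈ Ω, p f * avn Ω p l g' (f x) + (∑ f ∈ Ω, p f) * e := by
          rw [mul_sum, sum_mul, ← sum_add_distrib]
          exact sum_congr rfl fun f _ => by ring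
      _ = _ := by rw [h.one, one_mul]

/-- either the tokens spend much time in `B`, or a word with few letters places them -/
theorem dicho {ι : Type*} (s : Finset ι) (B : Finset (Fin n)) (j : ℕ) (x : ι → Fin n)
    (w : List (Fin n → Fin n)) (hw : Over Ω w) :
    ((s.card : ℝ) - j) * w.length ≤ ∑ t ∈ s, cst (inB B) w (x t) ∨
      ∃ w', Over Ω w' ∧ j + 1 ≤ (s.filter fun t => act w' (x t) ∉ B).card ∧
        (w'.length : ℝ) ≤ ∑ t ∈ s, cst mv w (x t) := by
  classical
  induction w generalizing x with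
  | nil =>
    left
    simp [cst]
  | cons f w ih =>
    by_cases hoff : j + 1 ≤ (s.filter fun t => x t ∉ B).card
    · right
      refine ⟨[], fun f hf => by simp at hf, hoff, ?_⟩
      simp only [List.length_nil, Nat.cast_zero]
      exact sum_nonneg fun t _ => cst_nonneg mv_nonneg _ _
    · have hon : (s.card : ℝ) - j ≤ ∑ t ∈ s, inB B f (x t) := by
        have h3 := card_filter_add_card_filter_not (s := s) (fun t => x t ∈ B)
        have h4 : s.card ≤ (s.filter fun t => x t ∈ B).card + j := by omega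
        have h5 : (s.card : ℝ) ≤ ((s.filter fun t => x t ∈ B).card : ℝ) + j := by exact_mod_cast h4
        unfold inB
        rw [← sum_filter, sum_const, nsmul_eq_mul, mul_one]
        linarith
      rcases ih (fun t => f (x t)) (fun a ha => hw a (by simp [ha])) with h1 | ⟨w', h1, h2, h3⟩
      · left
        simp only [cst, sum_add_distrib, List.length_cons]
        push_cast
        linarith
      · right
        have hf : f ∈ Ω := hw f (by simp)
        by_cases hm : ∀ t ∈ s, f (x t) = x t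
        · refine ⟨w', h1, ?_, ?_⟩
          · refine h2.trans (card_le_card ?_)
            intro t ht
            rw [mem_filter] at ht ⊢
            refine ⟨ht.1, ?_⟩
            have := ht.2
            rwa [hm t ht.1] at this
          · refine h3.trans (sum_le_sum fun t _ => ?_)
            have := mv_nonneg f (x t)
            simp only [cst]
            linarith
        · push Not at hm
          obtain ⟨t0, ht0, hne⟩ := hm
          refine ⟨f :: w', ?_, ?_, ?_⟩
          · intro a ha
            rcases List.mem_cons.1 ha with h4 | h4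
            · rw [h4]; exact hf
            · exact h1 a h4
          · exact h2
          · simp only [cst, sum_add_distrib, List.length_cons]
            push_cast
            have h4 : 1 ≤ ∑ t ∈ s, mv f (x t) := by
              calc (1 : ℝ) = mv f (x t0) := by
                    unfold mv
                    rw [if_neg hne]
                _ ≤ _ := single_le_sum (f := fun t => mv f (x t)) (fun t _ => mv_nonneg f (x t)) ht0
            linarith

/-- placing the tokens, counting only the letters which move a token -/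
theorem place2 (h : Bal Ω p) {κ d : ℝ}
    (hfl : ∀ L : Finset (Fin n), L.Nonempty → L ≠ univ → 1 ≤ κ * flow Ω p L) (hκ : 0 < κ)
    (hd : ∀ x, ∑ f ∈ Ω, p f * mv f x ≤ d) {J N : ℕ}
    (hJ : 2 * (J : ℝ) < κ * n ^ 2) {T B : Finset (Fin n)} {j m : ℕ} (hj : j < T.card)
    (hB : B.card ≤ m) (hJ0 : 0 < J)
    (hJ1 : 9 * κ * ((T.card : ℝ) * m) ^ 2 ≤ 2 * ((T.card : ℝ) - j) ^ 2 * J)
    (hN : 3 * (T.card : ℝ) * J * d < N + 1) :
    ∃ w, Over Ω w ∧ w.length ≤ N ∧ j + 1 ≤ (T.filter fun x => act w x ∉ B).card := by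
  classical
  by_contra hcon
  push Not at hcon
  set c : ℝ := (T.card : ℝ) - j with hc
  have hc0 : 0 < c := by
    have : (j : ℝ) < T.card := by exact_mod_cast hj
    linarith
  have hJr : (0 : ℝ) < J := by exact_mod_cast hJ0
  set a : ℝ := 1 / (c * J) with ha
  set b : ℝ := 1 / ((N : ℝ) + 1) with hb
  have ha0 : 0 < a := by positivity
  have hb0 : 0 < b := by positivity
  have key : 1 ≤ ∑ t ∈ T, avc Ω p (fun f x => a * inB B f x + b * mv f x) J t := by
    refine avc_ge h T _ 1 J (fun x => x) fun w hw hl => ?_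
    simp only [cst_lin, sum_add_distrib, ← mul_sum]
    have hn1 : 0 ≤ ∑ t ∈ T, cst (inB B) w t := sum_nonneg fun t _ => cst_nonneg (inB_nonneg B) _ _
    have hn2 : 0 ≤ ∑ t ∈ T, cst mv w t := sum_nonneg fun t _ => cst_nonneg mv_nonneg _ _
    rcases dicho T B j (fun x => x) w hw with h1 | ⟨w', h1, h2, h3⟩
    · rw [hl] at h1
      have h4 : a * (c * J) = 1 := by
        rw [ha]
        field_simp
      have h5 := mul_le_mul_of_nonneg_left h1 ha0.le
      have h6 : 0 ≤ b * ∑ t ∈ T, cst mv w t := mul_nonneg hb0.le hn2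
      linarith
    · have h4 : N + 1 ≤ w'.length := by
        by_contra hlt
        push Not at hlt
        have := hcon w' h1 (by omega)
        have h2' : j + 1 ≤ (T.filter fun x => act w' x ∉ B).card := h2
        omega
      have h5 : ((N : ℝ) + 1) ≤ ∑ t ∈ T, cst mv w t := by
        refine le_trans ?_ h3
        exact_mod_cast h4
      have h6 : b * ((N : ℝ) + 1) = 1 := by
        rw [hb]
        field_simp
      have h7 := mul_le_mul_of_nonneg_left h5 hb0.le
      have h8 : 0 ≤ a * ∑ t ∈ T, cst (inB B) w t := mul_nonneg ha0.le hn1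
      linarith
  have hφ : ∀ x, ∑ f ∈ Ω, p f * (a * inB B f x + b * mv f x) ≤
      a * (if x ∈ B then (1 : ℝ) else 0) + b * d := by
    intro x
    have h1 : ∑ f ∈ Ω, p f * (a * inB B f x + b * mv f x) =
        a * ((∑ f ∈ Ω, p f) * (if x ∈ B then (1 : ℝ) else 0)) + b * ∑ f ∈ Ω, p f * mv f x := by
      rw [sum_mul, mul_sum, mul_sum, ← sum_add_distrib]
      refine sum_congr rfl fun f _ => ?_
      unfold inB
      ring
    rw [h1, h.one, one_mul]
    have := mul_le_mul_of_nonneg_left (hd x) hb0.le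
    linarith
  have hup : ∑ t ∈ T, avc Ω p (fun f x => a * inB B f x + b * mv f x) J t ≤
      a * ((T.card : ℝ) * m * Real.sqrt (2 * κ * J)) + b * (T.card * J * d) := by
    have h1 : ∀ t ∈ T, avc Ω p (fun f x => a * inB B f x + b * mv f x) J t ≤
        a * ∑ b' ∈ B, gr Ω p J b' t + b * (J * d) := by
      intro t _
      rw [avc_eq]
      calc ∑ l ∈ range J, avn Ω p l (fun y => ∑ f ∈ Ω, p f * (a * inB B f y + b * mv f y)) t
          ≤ ∑ l ∈ range J, (a * avn Ω p l (fun y => if y ∈ B then (1 : ℝ) else 0) t + b * d) :=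
            sum_le_sum fun l _ => avn_le_of_le h hφ l t
        _ = a * ∑ b' ∈ B, gr Ω p J b' t + b * (J * d) := by
            rw [sum_add_distrib, ← mul_sum, sum_const, card_range, nsmul_eq_mul]
            simp only [avn_sum]
            rw [sum_comm]
            unfold gr
            ring
    calc ∑ t ∈ T, avc Ω p (fun f x => a * inB B f x + b * mv f x) J t
        ≤ ∑ t ∈ T, (a * ∑ b' ∈ B, gr Ω p J b' t + b * (J * d)) := sum_le_sum h1
      _ = a * ∑ t ∈ T, ∑ b' ∈ B, gr Ω p J b' t + b * (T.card * J * d) := by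
          rw [sum_add_distrib, ← mul_sum, sum_const, nsmul_eq_mul]
          ring
      _ ≤ _ := by
          have h2 : ∑ t ∈ T, ∑ b' ∈ B, gr Ω p J b' t ≤ (T.card : ℝ) * m * Real.sqrt (2 * κ * J) := by
            have h3 : ∀ b t, gr Ω p J b t ≤ Real.sqrt (2 * κ * J) := fun b t =>
              Real.le_sqrt_of_sq_le (gr_le h hfl hκ hJ b t)
            calc ∑ t ∈ T, ∑ b' ∈ B, gr Ω p J b' t ≤ ∑ t ∈ T, ∑ b' ∈ B, Real.sqrt (2 * κ * J) :=
                  sum_le_sum fun t _ => sum_le_sum fun b _ => h3 b t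
              _ = (T.card : ℝ) * B.card * Real.sqrt (2 * κ * J) := by
                  rw [sum_const, sum_const, nsmul_eq_mul, nsmul_eq_mul]
                  ring
              _ ≤ _ := by
                  have : (B.card : ℝ) ≤ m := by exact_mod_cast hB
                  gcongr
          have := mul_le_mul_of_nonneg_left h2 ha0.le
          linarith
  have hfirst : a * ((T.card : ℝ) * m * Real.sqrt (2 * κ * J)) ≤ 2 / 3 := by
    have h1 : (T.card : ℝ) * m * Real.sqrt (2 * κ * J) ≤ 2 / 3 * (c * J) := by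
      have h2 : ((T.card : ℝ) * m * Real.sqrt (2 * κ * J)) ^ 2 ≤ (2 / 3 * (c * J)) ^ 2 := by
        rw [mul_pow ((T.card : ℝ) * m), Real.sq_sqrt (by positivity)]
        have h3 := mul_le_mul_of_nonneg_right hJ1 hJr.le
        nlinarith
      exact le_of_sq_le_sq h2 (by positivity)
    calc a * ((T.card : ℝ) * m * Real.sqrt (2 * κ * J)) ≤ a * (2 / 3 * (c * J)) :=
          mul_le_mul_of_nonneg_left h1 ha0.le
      _ = 2 / 3 := by
          rw [ha]
          field_simp
  have hsecond : b * (T.card * J * d) < 1 / 3 := by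
    have h1 : (T.card : ℝ) * J * d < 1 / 3 * (N + 1) := by linarith
    calc b * (T.card * J * d) < b * (1 / 3 * ((N : ℝ) + 1)) := mul_lt_mul_of_pos_left h1 hb0
      _ = 1 / 3 := by
          rw [hb]
          field_simp
  linarith

private lemma cond0 {κ n T μ θ y m a J : ℝ} (hκ : 1 ≤ κ) (hT : 1 ≤ T) (hμ : 1 ≤ μ)
    (hθ0 : 0 < θ) (hθ1 : θ ≤ 1) (hTn : 27 * T ≤ n) (hy : 0 ≤ y)
    (hyT : y * (27 * T * μ) = n * θ ^ 2) (hm1 : m ≤ y) (hm0 : 0 ≤ m)
    (haθ : a * θ ^ 2 = 9 / 2 * κ * m ^ 2) (hJ : J ≤ a + 1) : 2 * J < κ * n ^ 2 := by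
  have hκ0 : 0 < κ := by linarith
  have hTμ : 1 ≤ T * μ := by nlinarith
  have h1 : y * 27 ≤ n * θ ^ 2 := by
    rw [← hyT]
    refine mul_le_mul_of_nonneg_left ?_ hy
    linarith
  have h2 : 27 * m ≤ n * θ ^ 2 := by linarith
  have h3 : (27 * m) ^ 2 ≤ (n * θ ^ 2) ^ 2 := pow_le_pow_left₀ (by linarith) h2 2
  have hθ2 : 0 < θ ^ 2 := by positivity
  have hθ4 : θ ^ 2 ≤ 1 := by nlinarith
  have h4 : (n * θ ^ 2) ^ 2 ≤ n ^ 2 * θ ^ 2 := by
    calc (n * θ ^ 2) ^ 2 = n ^ 2 * θ ^ 2 * θ ^ 2 := by ring
      _ ≤ n ^ 2 * θ ^ 2 * 1 := mul_le_mul_of_nonneg_left hθ4 (by positivity)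
      _ = _ := by ring
  have h5 : a ≤ κ * n ^ 2 / 162 := by
    have h6 : a * θ ^ 2 ≤ κ * n ^ 2 / 162 * θ ^ 2 := by
      rw [haθ]
      have h7 : κ * (27 * m) ^ 2 ≤ κ * (n ^ 2 * θ ^ 2) :=
        mul_le_mul_of_nonneg_left (h3.trans h4) hκ0.le
      linarith
    exact le_of_mul_le_mul_right h6 hθ2
  have h8 : (27 : ℝ) ≤ n := by linarith
  have h9 : (729 : ℝ) ≤ n ^ 2 := by nlinarith
  have h10 : n ^ 2 ≤ κ * n ^ 2 := le_mul_of_one_le_left (by positivity) hκ
  linarith

private lemma fin1 {n m y N : ℝ} (hN : N ≤ n * m / 2 + n / 9) (hm : y < m + 1)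
    (hm1 : 1 ≤ m) (hmy : m ≤ y) (hyn : 27 * y ≤ n) :
    N + (n - m - 1) * (n - 1) ≤ n ^ 2 - n * y / 2 := by
  have hn : 0 ≤ n := by linarith
  have h1 : n * y ≤ n * (m + 1) := mul_le_mul_of_nonneg_left hm.le hn
  nlinarith

/-- **main theorem**, second form -/
theorem main2 {p' : (Fin n → Fin n) → ℝ} (h' : Bal Ω p') (hpos : ∀ f ∈ Ω, 0 < p' f)
    (h : Bal Ω p) {κ μ : ℝ}
    (hfl : ∀ L : Finset (Fin n), L.Nonempty → L ≠ univ → 1 ≤ κ * flow Ω p L) (hκ : 1 ≤ κ)
    (hμ : 1 ≤ μ) (hmv : ∀ x, κ * ∑ f ∈ Ω, p f * mv f x ≤ μ)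
    {t : List (Fin n → Fin n)} (ht : Over Ω t) {q : Fin n} (htq : ∀ x, act t x = q)
    {T : Finset (Fin n)} {j : ℕ} (hj : j < T.card) :
    ∃ w, Over Ω w ∧
      (w.length : ℝ) ≤ (1 - (1 - (j : ℝ) / T.card) ^ 2 / (54 * T.card * μ)) * n ^ 2 ∧
      ∃ c, j + 1 ≤ (T.filter fun x => act w x = c).card := by
  classical
  have hκ0 : 0 < κ := by linarith
  have hμ0 : 0 < μ := by linarith
  have hT1 : (1 : ℝ) ≤ T.card := by
    have : 1 ≤ T.card := by omega
    exact_mod_cast this
  have hT0 : (0 : ℝ) < T.card := by linarith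
  have hjT : (j : ℝ) < T.card := by exact_mod_cast hj
  set θ : ℝ := 1 - (j : ℝ) / T.card with hθ
  have hθ0 : 0 < θ := by
    have : (j : ℝ) / T.card < 1 := by rwa [div_lt_one hT0]
    linarith
  have hθ1 : θ ≤ 1 := by
    have : 0 ≤ (j : ℝ) / T.card := by positivity
    linarith
  have hθT : θ * T.card = (T.card : ℝ) - j := by
    rw [hθ]
    field_simp
  have hn0 : 0 < n := by
    rcases Nat.eq_zero_or_pos n with h0 | h0
    · subst h0
      exact q.elim0
    · exact h0
  have hθ2 : θ ^ 2 ≤ 1 := by nlinarith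
  have hTμ : 1 ≤ (T.card : ℝ) * μ := by nlinarith
  have hfrac : θ ^ 2 / (54 * T.card * μ) ≤ 1 / 54 := by
    rw [div_le_iff₀ (by positivity)]
    nlinarith
  rcases Nat.lt_or_ge n 2 with h2 | h2
  · have hn1 : n = 1 := by omega
    subst hn1
    refine ⟨[], fun f hf => by simp at hf, ?_, 0, ?_⟩
    · simp only [List.length_nil, Nat.cast_zero, Nat.cast_one, one_pow, mul_one]
      linarith
    · have : (T.filter fun x => act [] x = 0) = T := by
        ext x
        simp only [mem_filter, and_iff_left_iff_imp]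
        intro _
        exact Subsingleton.elim _ _
      rw [this]
      exact hj
  · have hn2 : (2 : ℝ) ≤ n := by exact_mod_cast h2
    have hnpos : (0 : ℝ) < n := by linarith
    set y : ℝ := n * θ ^ 2 / (27 * T.card * μ) with hy
    have hy0 : 0 ≤ y := by positivity
    have hyT : y * (27 * (T.card : ℝ) * μ) = n * θ ^ 2 := by
      rw [hy]
      field_simp
    have hyn : 27 * (T.card : ℝ) * y ≤ n := by
      have h3 : 27 * (T.card : ℝ) * y ≤ y * (27 * (T.card : ℝ) * μ) := by
        have : 0 ≤ 27 * (T.card : ℝ) * y := by positivity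
        nlinarith
      nlinarith
    have hyn' : 27 * y ≤ n := by nlinarith
    set m := ⌊y⌋₊ with hm
    have hm1 : (m : ℝ) ≤ y := Nat.floor_le hy0
    have hm2 : y < m + 1 := Nat.lt_floor_add_one _
    have hmn : m < n := by
      have : (m : ℝ) < n := by linarith
      exact_mod_cast this
    have hm0 : (0 : ℝ) ≤ m := Nat.cast_nonneg m
    have h9 : (1 - θ ^ 2 / (54 * T.card * μ)) * (n : ℝ) ^ 2 = n ^ 2 - n * y / 2 := by
      rw [hy]
      field_simp
      ring
    have hcast : ∀ N : ℕ, ((N + (n - m - 1) * (n - 1) : ℕ) : ℝ) =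
        N + ((n : ℝ) - m - 1) * (n - 1) := by
      intro N
      rw [Nat.cast_add, Nat.cast_mul, Nat.sub_sub, Nat.cast_sub (by omega : m + 1 ≤ n),
        Nat.cast_sub (by omega : 1 ≤ n)]
      push_cast
      ring
    rcases Nat.eq_zero_or_pos m with hmz | hmpos
    · -- no placement
      have hc1 : 2 * ((0 + 1 : ℕ) : ℝ) < κ * n ^ 2 := by
        push_cast
        nlinarith
      have hc2 : 2 * κ * ((T.card : ℝ) * m) ^ 2 < ((T.card : ℝ) - j) ^ 2 * (0 + 1 : ℕ) := by
        rw [hmz]
        push_cast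
        have : 0 < (T.card : ℝ) - j := by linarith
        have h3 : 0 < ((T.card : ℝ) - j) ^ 2 := by positivity
        nlinarith
      obtain ⟨w, hw, hwl, hwc⟩ := general h' hpos h hfl hκ0 ht htq hj hmn hc1 hc2
      refine ⟨w, hw, ?_, hwc⟩
      have h7 : (w.length : ℝ) ≤ 0 + ((n : ℝ) - m - 1) * (n - 1) := by
        have := hcast 0
        rw [Nat.cast_zero] at this
        rw [← this]
        exact_mod_cast hwl
      rw [h9]
      rw [hmz] at h7 hm2
      push_cast at h7 hm2
      nlinarith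
    · have hm1' : (1 : ℝ) ≤ m := by exact_mod_cast hmpos
      have hTn : 27 * (T.card : ℝ) ≤ n := by
        have : 27 * (T.card : ℝ) * 1 ≤ 27 * (T.card : ℝ) * y :=
          mul_le_mul_of_nonneg_left (by linarith) (by positivity)
        linarith
      set a : ℝ := 9 / 2 * κ * m ^ 2 / θ ^ 2 with ha
      have ha0 : 0 ≤ a := by positivity
      set J := ⌊a⌋₊ + 1 with hJdef
      have hJ1 : (J : ℝ) ≤ a + 1 := by
        rw [hJdef]
        push_cast
        have := Nat.floor_le ha0
        linarith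
      have hJ2 : a < J := by
        rw [hJdef]
        push_cast
        exact Nat.lt_floor_add_one _
      have haθ : a * θ ^ 2 = 9 / 2 * κ * m ^ 2 := by
        rw [ha]
        field_simp
      set d : ℝ := min 1 (μ / κ) with hd
      have hd0 : 0 < d := lt_min one_pos (by positivity)
      have hd1 : d ≤ 1 := min_le_left _ _
      have hdκ : d * κ ≤ μ := by
        have := min_le_right 1 (μ / κ)
        calc d * κ ≤ μ / κ * κ := mul_le_mul_of_nonneg_right this hκ0.le
          _ = μ := by field_simp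
      have hmvd : ∀ x, ∑ f ∈ Ω, p f * mv f x ≤ d := by
        intro x
        refine le_min ?_ ?_
        · calc ∑ f ∈ Ω, p f * mv f x ≤ ∑ f ∈ Ω, p f * 1 := by
                refine sum_le_sum fun f hf => mul_le_mul_of_nonneg_left ?_ (h.nonneg f hf)
                unfold mv
                split_ifs <;> norm_num
            _ = 1 := by
                simp only [mul_one]
                exact h.one
        · rw [le_div_iff₀ hκ0, mul_comm]
          exact hmv x
      set N := ⌊3 * (T.card : ℝ) * J * d⌋₊ with hN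
      have hN0 : 0 ≤ 3 * (T.card : ℝ) * J * d := by positivity
      have hN1 : (N : ℝ) ≤ 3 * (T.card : ℝ) * J * d := Nat.floor_le hN0
      have hN2 : 3 * (T.card : ℝ) * J * d < N + 1 := Nat.lt_floor_add_one _
      -- a d ≤ ...
      have had : 3 * (T.card : ℝ) * a * d ≤ n * m / 2 := by
        have h3 : 3 * (T.card : ℝ) * a * d * θ ^ 2 ≤ n * m / 2 * θ ^ 2 := by
          calc 3 * (T.card : ℝ) * a * d * θ ^ 2 = 3 * (T.card : ℝ) * d * (a * θ ^ 2) := by ring
            _ = 27 / 2 * (T.card : ℝ) * (d * κ) * m ^ 2 := by rw [haθ]; ring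
            _ ≤ 27 / 2 * (T.card : ℝ) * μ * m ^ 2 := by
                have : 0 ≤ 27 / 2 * (T.card : ℝ) := by positivity
                have h4 := mul_le_mul_of_nonneg_left hdκ this
                have h5 : (0 : ℝ) ≤ m ^ 2 := by positivity
                exact mul_le_mul_of_nonneg_right h4 h5
            _ ≤ 27 / 2 * (T.card : ℝ) * μ * (y * m) := by
                have : 0 ≤ 27 / 2 * (T.card : ℝ) * μ := by positivity
                refine mul_le_mul_of_nonneg_left ?_ this
                rw [sq]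
                exact mul_le_mul_of_nonneg_right hm1 hm0
            _ = (y * (27 * (T.card : ℝ) * μ)) * m / 2 := by ring
            _ = n * m / 2 * θ ^ 2 := by rw [hyT]; ring
        exact le_of_mul_le_mul_right h3 (by positivity)
      have hNle : (N : ℝ) ≤ n * m / 2 + n / 9 := by
        have h3 : 3 * (T.card : ℝ) * J * d ≤ 3 * (T.card : ℝ) * a * d + 3 * (T.card : ℝ) := by
          calc 3 * (T.card : ℝ) * J * d ≤ 3 * (T.card : ℝ) * (a + 1) * d := by gcongr
            _ = 3 * (T.card : ℝ) * a * d + 3 * (T.card : ℝ) * d := by ring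
            _ ≤ _ := by
                have : 3 * (T.card : ℝ) * d ≤ 3 * (T.card : ℝ) * 1 :=
                  mul_le_mul_of_nonneg_left hd1 (by positivity)
                linarith
        linarith
      have hcond0 : 2 * (J : ℝ) < κ * n ^ 2 := by
        exact cond0 hκ hT1 hμ hθ0 hθ1 hTn hy0 hyT hm1 hm0 haθ hJ1
      have hcond1 : 9 * κ * ((T.card : ℝ) * m) ^ 2 ≤ 2 * ((T.card : ℝ) - j) ^ 2 * J := by
        rw [← hθT]
        have h5 : 9 / 2 * κ * m ^ 2 ≤ J * θ ^ 2 := by
          rw [← haθ]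
          exact mul_le_mul_of_nonneg_right hJ2.le (by positivity)
        have h6 := mul_le_mul_of_nonneg_left h5 (by positivity : (0 : ℝ) ≤ 2 * (T.card : ℝ) ^ 2)
        calc 9 * κ * ((T.card : ℝ) * m) ^ 2 = 2 * (T.card : ℝ) ^ 2 * (9 / 2 * κ * m ^ 2) := by ring
          _ ≤ 2 * (T.card : ℝ) ^ 2 * (J * θ ^ 2) := h6
          _ = _ := by ring
      obtain ⟨v, hv, hvl, c, hc⟩ := fibre h' hpos ht htq (n - m) (by omega) (by omega)
      set B : Finset (Fin n) := univ.filter fun x => act v x ≠ c with hBdef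
      have hB : B.card ≤ m := by
        have h1 := card_filter_add_card_filter_not (s := (univ : Finset (Fin n)))
          (fun x => act v x = c)
        rw [card_univ, Fintype.card_fin] at h1
        have h2 : B.card = (univ.filter fun x => ¬ act v x = c).card := rfl
        omega
      obtain ⟨u, hu, hul, hu2⟩ := place2 h hfl hκ0 hmvd hcond0 hj hB (Nat.succ_pos _) hcond1 hN2
      refine ⟨u ++ v, hu.append hv, ?_, c, hu2.trans (card_le_card ?_)⟩
      · have h7 : ((u ++ v).length : ℝ) ≤ N + ((n : ℝ) - m - 1) * (n - 1) := by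
          rw [← hcast N, List.length_append]
          exact_mod_cast (by omega : u.length + v.length ≤ N + (n - m - 1) * (n - 1))
        rw [h9]
        exact h7.trans (fin1 hNle hm2 hm1' hm1 hyn')
      · intro x hx
        rw [mem_filter] at hx ⊢
        refine ⟨hx.1, ?_⟩
        rw [act_append]
        by_contra hne
        exact hx.2 (mem_filter.2 ⟨mem_univ _, hne⟩)

end Helper26.Eul
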